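import Mathlib

set_option autoImplicit false

/-!
# A nilpotent hypercomplex Lie algebra whose Obata connection has non-abelian holonomy

We disprove that the holonomy algebra of the Obata connection of a left-invariant hypercomplex
structure on a nilpotent Lie group is always abelian. The example has dimension 32 and is 3-step
nilpotent (for 2-step nilpotent groups the holonomy algebra is known to be abelian); moreover it is a
semidirect product of two abelian Lie algebras.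

The Lie algebra is `ℂ² ⊕ ℂ⁷ ⊕ ℂ⁷`, with elements `(z, w; a₀, …, a₆; b₀, …, b₆)`; the first summand
`ℂ² = ℍ` acts on the abelian ideal `ℂ⁷ ⊕ ℂ⁷ = ℍ⁷`.
-/

namespace Pool.Agent.Results.MP_590da2_gt.NonabelianHolonomy

open ComplexConjugate

section Definitions

variable {g : Type} [LieRing g] [LieAlgebra ℝ g]

/-- `J² = -1` and the Nijenhuis tensor `[X, Y] + J([JX, Y] + [X, JY]) - [JX, JY]` vanishes. -/
def IsComplexStructure (J : g →ₗ[ℝ] g) : Prop :=
  (∀ X, J (J X) = -X) ∧ ∀ X Y, ⁅X, Y⁆ + J (⁅J X, Y⁆ + ⁅X, J Y⁆) - ⁅J X, J Y⁆ = 0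

/-- Three complex structures with `J₁ J₂ = - J₂ J₁ = J₃`. -/
structure IsHypercomplex (J₁ J₂ J₃ : g →ₗ[ℝ] g) : Prop where
  complex₁ : IsComplexStructure J₁
  complex₂ : IsComplexStructure J₂
  complex₃ : IsComplexStructure J₃
  mul_eq : ∀ X, J₁ (J₂ X) = J₃ X
  mul_eq_neg : ∀ X, J₂ (J₁ X) = - J₃ X

/-- The Obata connection
`∇_X Y = ([X, Y] + J₁[J₁X, Y] - J₂[X, J₂Y] + J₃[J₁X, J₂Y]) / 2` (as a linear map in `Y`). -/
noncomputable def obata (J₁ J₂ J₃ : g →ₗ[ℝ] g) (X : g) : Module.End ℝ g :=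
  (1 / 2 : ℝ) • (LieAlgebra.ad ℝ g X + J₁ ∘ₗ LieAlgebra.ad ℝ g (J₁ X)
    - J₂ ∘ₗ LieAlgebra.ad ℝ g X ∘ₗ J₂ + J₃ ∘ₗ LieAlgebra.ad ℝ g (J₁ X) ∘ₗ J₂)

/-- The curvature operator `R(X, Y) = ∇_X ∇_Y - ∇_Y ∇_X - ∇_[X, Y]`. -/
noncomputable def curvature (J₁ J₂ J₃ : g →ₗ[ℝ] g) (X Y : g) : Module.End ℝ g :=
  obata J₁ J₂ J₃ X * obata J₁ J₂ J₃ Y - obata J₁ J₂ J₃ Y * obata J₁ J₂ J₃ X
    - obata J₁ J₂ J₃ ⁅X, Y⁆

/-- The holonomy algebra of the Obata connection: the smallest linear space of endomorphisms of `g`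
which contains all curvature operators `R(X, Y)`, is closed under the commutator `AB - BA`, and is
mapped into itself by all `A ↦ ∇_X A - A ∇_X`. -/
noncomputable def holonomy (J₁ J₂ J₃ : g →ₗ[ℝ] g) : Submodule ℝ (Module.End ℝ g) :=
  sInf {h | (∀ X Y, curvature J₁ J₂ J₃ X Y ∈ h) ∧ (∀ A ∈ h, ∀ B ∈ h, A * B - B * A ∈ h) ∧
    ∀ X, ∀ A ∈ h, obata J₁ J₂ J₃ X * A - A * obata J₁ J₂ J₃ X ∈ h}

end Definitions

/-- The underlying space `ℂ¹⁶` of the example: coordinates `0, 1` are `z, w`, coordinates `2, …, 8`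
are `a₀, …, a₆` and coordinates `9, …, 15` are `b₀, …, b₆`. -/
def G : Type := Fin 16 → ℂ

noncomputable instance : AddCommGroup G := inferInstanceAs (AddCommGroup (Fin 16 → ℂ))
noncomputable instance : Module ℝ G := inferInstanceAs (Module ℝ (Fin 16 → ℂ))

/-- The action of `ℂ² = ℍ` on `ℂ⁷ ⊕ ℂ⁷ = ℍ⁷`. -/
noncomputable def T (x y : G) : Fin 16 → ℂ :=
  ![0, 0,
    0,
    2 * conj (x 0) * y 2 + conj (x 1) * y 9,
    0,
    conj (x 0) * y 3 + conj (x 1) * y 10,
    x 0 * y 5 - x 1 * y 4 + x 0 * y 11,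
    - x 0 * y 5 - x 0 * y 11,
    - x 0 * y 7,
    0,
    conj (x 0) * y 9,
    - conj (x 0) * y 3 - conj (x 1) * y 10,
    0,
    x 0 * y 12,
    - x 1 * y 5 - x 1 * y 11,
    x 0 * y 13 - x 1 * y 6 - x 1 * y 7]

noncomputable instance : Bracket G G := ⟨fun x y => (T x y - T y x : Fin 16 → ℂ)⟩

theorem bracket_apply (x y : G) (i : Fin 16) : (⁅x, y⁆ : G) i = T x y i - T y x i := rfl
theorem add_apply' (x y : G) (i : Fin 16) : (x + y) i = x i + y i := rfl
theorem sub_apply' (x y : G) (i : Fin 16) : (x - y) i = x i - y i := rfl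
theorem neg_apply' (x : G) (i : Fin 16) : (-x) i = - x i := rfl
theorem zero_apply' (i : Fin 16) : (0 : G) i = 0 := rfl
theorem smul_apply' (r : ℝ) (x : G) (i : Fin 16) : (r • x) i = (r : ℂ) * x i := by
  change r • x i = _
  exact Complex.real_smul

noncomputable instance : LieRing G where
  add_lie x y z := by
    funext i
    simp only [bracket_apply, add_apply']
    fin_cases i <;> simp [T, add_apply'] <;> ring
  lie_add x y z := by
    funext i
    simp only [bracket_apply, add_apply']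
    fin_cases i <;> simp [T, add_apply'] <;> ring
  lie_self x := by
    funext i
    simp only [bracket_apply, zero_apply', sub_self]
  leibniz_lie x y z := by
    funext i
    simp only [bracket_apply, add_apply']
    fin_cases i <;> simp [T, bracket_apply] <;> ring

noncomputable instance : LieAlgebra ℝ G where
  lie_smul r x y := by
    funext i
    simp only [bracket_apply, smul_apply']
    fin_cases i <;> simp [T, smul_apply'] <;> ring


/-- Right multiplication by the quaternion `i`. -/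
noncomputable def F₁ (x : G) : Fin 16 → ℂ :=
  ![Complex.I * x 0, - Complex.I * x 1,
    Complex.I * x 2, Complex.I * x 3, Complex.I * x 4, Complex.I * x 5, Complex.I * x 6,
    Complex.I * x 7, Complex.I * x 8,
    - Complex.I * x 9, - Complex.I * x 10, - Complex.I * x 11, - Complex.I * x 12,
    - Complex.I * x 13, - Complex.I * x 14, - Complex.I * x 15]

/-- Right multiplication by the quaternion `j`. -/
noncomputable def F₂ (x : G) : Fin 16 → ℂ :=
  ![- x 1, x 0, - x 9, - x 10, - x 11, - x 12, - x 13, - x 14, - x 15,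
    x 2, x 3, x 4, x 5, x 6, x 7, x 8]

/-- The product of the two. -/
noncomputable def F₃ (x : G) : Fin 16 → ℂ :=
  ![- Complex.I * x 1, - Complex.I * x 0,
    - Complex.I * x 9, - Complex.I * x 10, - Complex.I * x 11, - Complex.I * x 12,
    - Complex.I * x 13, - Complex.I * x 14, - Complex.I * x 15,
    - Complex.I * x 2, - Complex.I * x 3, - Complex.I * x 4, - Complex.I * x 5, - Complex.I * x 6,
    - Complex.I * x 7, - Complex.I * x 8]

noncomputable def J₁ : G →ₗ[ℝ] G where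
  toFun x := (F₁ x : Fin 16 → ℂ)
  map_add' x y := by
    funext i
    change F₁ (x + y) i = F₁ x i + F₁ y i
    fin_cases i <;> simp [F₁, add_apply'] <;> ring
  map_smul' r x := by
    funext i
    refine Eq.trans ?_ (smul_apply' r (F₁ x : Fin 16 → ℂ) i).symm
    change F₁ (r • x) i = _
    fin_cases i <;> simp [F₁, smul_apply'] <;> ring

noncomputable def J₂ : G →ₗ[ℝ] G where
  toFun x := (F₂ x : Fin 16 → ℂ)
  map_add' x y := by
    funext i
    change F₂ (x + y) i = F₂ x i + F₂ y i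
    fin_cases i <;> simp [F₂, add_apply'] <;> ring
  map_smul' r x := by
    funext i
    refine Eq.trans ?_ (smul_apply' r (F₂ x : Fin 16 → ℂ) i).symm
    change F₂ (r • x) i = _
    fin_cases i <;> simp [F₂, smul_apply']

noncomputable def J₃ : G →ₗ[ℝ] G where
  toFun x := (F₃ x : Fin 16 → ℂ)
  map_add' x y := by
    funext i
    change F₃ (x + y) i = F₃ x i + F₃ y i
    fin_cases i <;> simp [F₃, add_apply'] <;> ring
  map_smul' r x := by
    funext i
    refine Eq.trans ?_ (smul_apply' r (F₃ x : Fin 16 → ℂ) i).symm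
    change F₃ (r • x) i = _
    fin_cases i <;> simp [F₃, smul_apply'] <;> ring

theorem J₁_apply (x : G) (i : Fin 16) : J₁ x i = F₁ x i := rfl
theorem J₂_apply (x : G) (i : Fin 16) : J₂ x i = F₂ x i := rfl
theorem J₃_apply (x : G) (i : Fin 16) : J₃ x i = F₃ x i := rfl

theorem I_mul_I_mul (x : ℂ) : Complex.I * (Complex.I * x) = -x := by
  rw [← mul_assoc, Complex.I_mul_I]; ring

theorem complexJ₁ : IsComplexStructure J₁ := by
  refine ⟨fun x => ?_, fun x y => ?_⟩
  · funext i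
    rw [neg_apply', J₁_apply]
    fin_cases i <;> simp [F₁, J₁_apply, I_mul_I_mul]
  · funext i
    simp only [bracket_apply, add_apply', sub_apply', zero_apply', J₁_apply]
    fin_cases i <;> simp [T, F₁, J₁_apply, add_apply', bracket_apply] <;> ring_nf <;>
      simp [Complex.I_sq]

theorem complexJ₂ : IsComplexStructure J₂ := by
  refine ⟨fun x => ?_, fun x y => ?_⟩
  · funext i
    rw [neg_apply', J₂_apply]
    fin_cases i <;> simp [F₂, J₂_apply]
  · funext i
    simp only [bracket_apply, add_apply', sub_apply', zero_apply', J₂_apply]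
    fin_cases i <;> simp [T, F₂, J₂_apply, add_apply', bracket_apply] <;> ring

theorem J₁_J₂ (x : G) : J₁ (J₂ x) = J₃ x := by
  funext i
  rw [J₁_apply, J₃_apply]
  fin_cases i <;> simp [F₁, F₂, F₃, J₂_apply]

theorem J₂_J₁ (x : G) : J₂ (J₁ x) = - J₃ x := by
  funext i
  rw [J₂_apply, neg_apply', J₃_apply]
  fin_cases i <;> simp [F₁, F₂, F₃, J₁_apply]

theorem complexJ₃ : IsComplexStructure J₃ := by
  refine ⟨fun x => ?_, fun x y => ?_⟩
  · have h1 : J₂ (J₁ (J₂ x)) = - J₁ (J₂ (J₂ x)) := by rw [J₂_J₁, J₁_J₂]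
    rw [← J₁_J₂ (J₃ x), ← J₁_J₂ x, h1, map_neg, complexJ₁.1, complexJ₂.1]
    simp
  · funext i
    simp only [bracket_apply, add_apply', sub_apply', zero_apply', J₃_apply]
    fin_cases i <;> simp [T, F₃, J₃_apply, add_apply', bracket_apply] <;> ring_nf <;>
      simp [Complex.I_sq]

theorem hypercomplex : IsHypercomplex J₁ J₂ J₃ where
  complex₁ := complexJ₁
  complex₂ := complexJ₂
  complex₃ := complexJ₃
  mul_eq := J₁_J₂
  mul_eq_neg := J₂_J₁

/-- The Obata connection of the example. -/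
noncomputable def N (x y : G) : Fin 16 → ℂ :=
  ![0, 0,
    0,
    2 * conj (x 0) * y 2 - conj (y 1) * x 9,
    - conj (x 1) * y 3 - conj (y 1) * x 3,
    conj (x 0) * y 3 - conj (y 1) * x 10,
    x 0 * y 5 - x 1 * y 4 - y 0 * x 11,
    y 0 * x 5 + y 0 * x 11,
    x 0 * y 6 + y 0 * x 6 + y 0 * x 7,
    0,
    2 * conj (x 0) * y 9 + conj (y 0) * x 9,
    - conj (x 1) * y 10 + conj (y 0) * x 3,
    conj (x 0) * y 10 + conj (y 0) * x 10,
    x 0 * y 12 - x 1 * y 11 - y 1 * x 11,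
    y 1 * x 5 + y 1 * x 11,
    x 0 * y 13 + y 1 * x 6 + y 1 * x 7]

theorem obata_apply (x y : G) (i : Fin 16) : obata J₁ J₂ J₃ x y i = N x y i := by
  have h : obata J₁ J₂ J₃ x y = (1 / 2 : ℝ) • (⁅x, y⁆ + J₁ ⁅J₁ x, y⁆ - J₂ ⁅x, J₂ y⁆
    + J₃ ⁅J₁ x, J₂ y⁆) := rfl
  rw [h, smul_apply', add_apply', sub_apply', add_apply', bracket_apply, J₁_apply, J₂_apply,
    J₃_apply]
  fin_cases i <;> simp [T, F₁, F₂, F₃, J₁_apply, J₂_apply, bracket_apply, N] <;>
    ring_nf <;> simp [Complex.I_sq] <;> ring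

theorem nilpotent (x y z w : G) : ⁅x, ⁅y, ⁅z, w⁆⁆⁆ = 0 := by
  funext i
  rw [bracket_apply, zero_apply']
  fin_cases i <;> simp [T, bracket_apply] <;> first | ring1 | (right; ring1)

theorem metabelian (x y z w : G) : ⁅⁅x, y⁆, ⁅z, w⁆⁆ = 0 := by
  funext i
  rw [bracket_apply, zero_apply']
  fin_cases i <;> simp [T, bracket_apply]

theorem torsionFree (x y : G) : obata J₁ J₂ J₃ x y - obata J₁ J₂ J₃ y x = ⁅x, y⁆ := by
  funext i
  rw [sub_apply', obata_apply, obata_apply, bracket_apply]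
  fin_cases i <;> simp [T, N] <;> ring

theorem parallel₁ (x y : G) : obata J₁ J₂ J₃ x (J₁ y) = J₁ (obata J₁ J₂ J₃ x y) := by
  funext i
  rw [obata_apply, J₁_apply]
  fin_cases i <;> simp [F₁, J₁_apply, obata_apply, N] <;> ring

theorem parallel₂ (x y : G) : obata J₁ J₂ J₃ x (J₂ y) = J₂ (obata J₁ J₂ J₃ x y) := by
  funext i
  rw [obata_apply, J₂_apply]
  fin_cases i <;> simp [F₂, J₂_apply, obata_apply, N] <;> ring

theorem parallel₃ (x y : G) : obata J₁ J₂ J₃ x (J₃ y) = J₃ (obata J₁ J₂ J₃ x y) := by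
  rw [← hypercomplex.mul_eq, ← hypercomplex.mul_eq, parallel₁, parallel₂]

/-- The vector with only the `j`-th coordinate `c`. -/
noncomputable def E (j : Fin 16) (c : ℂ) : G := fun i => if i = j then c else 0

theorem E_apply (j : Fin 16) (c : ℂ) (i : Fin 16) : E j c i = if i = j then c else 0 := rfl

theorem curvature_apply (x y v : G) (i : Fin 16) : curvature J₁ J₂ J₃ x y v i =
    N x (obata J₁ J₂ J₃ y v) i - N y (obata J₁ J₂ J₃ x v) i - N ⁅x, y⁆ v i := by
  have h : curvature J₁ J₂ J₃ x y v = obata J₁ J₂ J₃ x (obata J₁ J₂ J₃ y v)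
    - obata J₁ J₂ J₃ y (obata J₁ J₂ J₃ x v) - obata J₁ J₂ J₃ ⁅x, y⁆ v := rfl
  rw [h, sub_apply', sub_apply', obata_apply, obata_apply, obata_apply]

theorem noncommuting :
    curvature J₁ J₂ J₃ (E 0 1) (E 1 1) * curvature J₁ J₂ J₃ (E 0 Complex.I) (E 1 1) ≠
    curvature J₁ J₂ J₃ (E 0 Complex.I) (E 1 1) * curvature J₁ J₂ J₃ (E 0 1) (E 1 1) := by
  intro h
  have h1 := congrFun (LinearMap.congr_fun h (E 2 1)) 8
  rw [Module.End.mul_apply, Module.End.mul_apply, curvature_apply, curvature_apply] at h1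
  simp [N, obata_apply, curvature_apply, E_apply, bracket_apply, T] at h1
  have h2 := congrArg Complex.im h1
  norm_num at h2

theorem finrank_eq : Module.finrank ℝ G = 32 := by
  have h : Module.finrank ℝ (Fin 16 → ℂ) = 32 := by
    rw [Module.finrank_pi_fintype]
    simp [Complex.finrank_real_complex]
  exact h

theorem curvature_mem {g : Type} [LieRing g] [LieAlgebra ℝ g] (J₁ J₂ J₃ : g →ₗ[ℝ] g) (X Y : g) :
    curvature J₁ J₂ J₃ X Y ∈ holonomy J₁ J₂ J₃ := by
  rw [holonomy, Submodule.mem_sInf]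
  intro h hh
  exact hh.1 X Y

/-- There is a 3-step nilpotent real Lie algebra of dimension 32 with a hypercomplex structure whose
Obata connection has a non-abelian holonomy algebra; already two curvature operators do not commute. -/
theorem result : ∃ (g : Type) (_ : LieRing g) (_ : LieAlgebra ℝ g) (J₁ J₂ J₃ : g →ₗ[ℝ] g),
    Module.finrank ℝ g = 32 ∧
    (∀ X Y Z W : g, ⁅X, ⁅Y, ⁅Z, W⁆⁆⁆ = 0) ∧
    (∀ X Y Z W : g, ⁅⁅X, Y⁆, ⁅Z, W⁆⁆ = 0) ∧
    IsHypercomplex J₁ J₂ J₃ ∧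
    (∀ X Y, obata J₁ J₂ J₃ X Y - obata J₁ J₂ J₃ Y X = ⁅X, Y⁆) ∧
    (∀ X Y, obata J₁ J₂ J₃ X (J₁ Y) = J₁ (obata J₁ J₂ J₃ X Y) ∧
      obata J₁ J₂ J₃ X (J₂ Y) = J₂ (obata J₁ J₂ J₃ X Y) ∧
      obata J₁ J₂ J₃ X (J₃ Y) = J₃ (obata J₁ J₂ J₃ X Y)) ∧
    (∃ X Y X' Y', curvature J₁ J₂ J₃ X Y * curvature J₁ J₂ J₃ X' Y' ≠
      curvature J₁ J₂ J₃ X' Y' * curvature J₁ J₂ J₃ X Y) ∧
    ∃ A ∈ holonomy J₁ J₂ J₃, ∃ B ∈ holonomy J₁ J₂ J₃, A * B ≠ B * A :=
  ⟨G, inferInstance, inferInstance, J₁, J₂, J₃, finrank_eq, nilpotent, metabelian, hypercomplex,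
    torsionFree, fun x y => ⟨parallel₁ x y, parallel₂ x y, parallel₃ x y⟩,
    ⟨_, _, _, _, noncommuting⟩,
    _, curvature_mem _ _ _ _ _, _, curvature_mem _ _ _ _ _, noncommuting⟩

end Pool.Agent.Results.MP_590da2_gt.NonabelianHolonomy
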